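import Pool.Agent.Helper36.Alg.Graph
import Pool.Agent.Helper50.AL.Solve

/-!
# GA-8: the solver computes the parity number of a family of lines
-/

set_option autoImplicit false

namespace Pool.Agent.Helper36.Alg

open Finset Pool.Agent.Helper36.PT

/-- Linear independence of the lines with the numbers in `Z`, over the family. -/
theorem linIndep_map_iff {K ι m : Type} [Field K] {M : ℕ} (a : ι → Fin 2 → m → K)
    (e : Fin M ↪ ι) (Z : Finset (Fin M)) :
    LinearIndependent K (fun i : ↥(Z.map e) × Fin 2 => a i.1 i.2) ↔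
      LinearIndependent K (fun i : Z × Fin 2 => a (e i.1) i.2) := by
  let f : Z ≃ ↥(Z.map e) := Equiv.ofBijective
    (fun z => ⟨e z, Finset.mem_map_of_mem e z.2⟩) ⟨fun z z' h => by
      have : e z = e z' := congrArg Subtype.val h
      exact Subtype.ext (e.injective this), fun l => by
        obtain ⟨z, hz, hl⟩ := Finset.mem_map.1 l.2
        exact ⟨⟨z, hz⟩, Subtype.ext hl⟩⟩
  rw [← linearIndependent_equiv (Equiv.prodCongr f (Equiv.refl (Fin 2)))]
  exact Iff.rfl

/-- Comparison of the solver with a family of lines: `code` numbers the lines of the family `I`,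
`κ` numbers the coordinates. -/
theorem solve_eq_parityNumber {p : ℕ} [hp : Fact p.Prime] {ι m : Type} (I : Finset ι)
    (a : ι → Fin 2 → m → ZMod p) (M D : ℕ) (A B : ℕ → ℕ → ℕ) (hbig : 2 + M + 2 * M ^ 2 < p)
    (e : Fin M → ι) (he : Function.Injective e) (heI : ∀ i, e i ∈ I)
    (hsurj : ∀ l ∈ I, (∀ s t : ZMod p, s • a l 0 + t • a l 1 = 0 → s = 0 ∧ t = 0) →
      ∃ i, e i = l)
    (hnd : ∀ i, ∀ s t : ZMod p, s • a (e i) 0 + t • a (e i) 1 = 0 → s = 0 ∧ t = 0)
    (κ : m → Fin D) (hκ : Function.Injective κ)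
    (hA : ∀ (i : Fin M) x, ((A i (κ x) : ℕ) : ZMod p) = a (e i) 0 x)
    (hB : ∀ (i : Fin M) x, ((B i (κ x) : ℕ) : ZMod p) = a (e i) 1 x)
    (hA0 : ∀ (i : Fin M) (y : Fin D), (∀ x, κ x ≠ y) → ((A i y : ℕ) : ZMod p) = 0)
    (hB0 : ∀ (i : Fin M) (y : Fin D), (∀ x, κ x ≠ y) → ((B i y : ℕ) : ZMod p) = 0) :
    solve p D M A B = 2 * PinK.parityNumber I a := by
  classical
  set E : (m → ZMod p) →ₗ[ZMod p] (Fin D → ZMod p) :=
    Function.ExtendByZero.linearMap (ZMod p) κ with hE
  have hEi : Function.Injective E := by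
    intro f g h
    funext x
    have h1 : Function.extend κ f 0 (κ x) = Function.extend κ g 0 (κ x) := congrFun h (κ x)
    rwa [hκ.extend_apply, hκ.extend_apply] at h1
  have hEA : ∀ i : Fin M, vecZ p D M A i = E (a (e i) 0) := by
    intro i
    funext y
    show ((A i y : ℕ) : ZMod p) = Function.extend κ (a (e i) 0) 0 y
    by_cases h : ∃ x, κ x = y
    · obtain ⟨x, rfl⟩ := h
      rw [hκ.extend_apply, hA]
    · rw [Function.extend_apply' _ _ _ h, hA0 i y fun x hx => h ⟨x, hx⟩]
      rfl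
  have hEB : ∀ i : Fin M, vecZ p D M B i = E (a (e i) 1) := by
    intro i
    funext y
    show ((B i y : ℕ) : ZMod p) = Function.extend κ (a (e i) 1) 0 y
    by_cases h : ∃ x, κ x = y
    · obtain ⟨x, rfl⟩ := h
      rw [hκ.extend_apply, hB]
    · rw [Function.extend_apply' _ _ _ h, hB0 i y fun x hx => h ⟨x, hx⟩]
      rfl
  have hnd' : ∀ (i : Fin M) (s t : ZMod p), s • vecZ p D M A i + t • vecZ p D M B i = 0 →
      s = 0 ∧ t = 0 := by
    intro i s t h
    rw [hEA, hEB, ← map_smul, ← map_smul, ← map_add] at h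
    exact hnd i s t (hEi (by rw [h, map_zero]))
  have hfam : ∀ Z : Finset (Fin M), LinearIndependent (ZMod p)
      (fun i : Z × Fin 2 => ![vecZ p D M A i.1, vecZ p D M B i.1] i.2) ↔
      LinearIndependent (ZMod p) (fun i : ↥(Z.map ⟨e, he⟩) × Fin 2 => a i.1 i.2) := by
    intro Z
    rw [linIndep_map_iff a ⟨e, he⟩ Z]
    have : (fun i : Z × Fin 2 => ![vecZ p D M A i.1, vecZ p D M B i.1] i.2) =
        E ∘ (fun i : Z × Fin 2 => a (e i.1) i.2) := by
      funext ⟨i, j⟩
      fin_cases j
      · simp [hEA]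
      · simp [hEB]
    rw [this]
    exact LinearMap.linearIndependent_iff E (LinearMap.ker_eq_bot.2 hEi)
  obtain ⟨h1, Z0, hZ0, hZ0c⟩ := solve_spec D M A B hbig hnd'
  refine le_antisymm ?_ ?_
  · rw [← hZ0c]
    refine Nat.mul_le_mul_left 2 ?_
    have : (Z0.map ⟨e, he⟩).card ≤ PinK.parityNumber I a := by
      unfold PinK.parityNumber
      refine Finset.le_sup (f := Finset.card) ?_
      rw [Finset.mem_filter, Finset.mem_powerset]
      refine ⟨fun l hl => ?_, (hfam Z0).1 hZ0⟩
      obtain ⟨i, _, rfl⟩ := Finset.mem_map.1 hl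
      exact heI i
    rwa [Finset.card_map] at this
  · have : PinK.parityNumber I a ≤ solve p D M A B / 2 := by
      unfold PinK.parityNumber
      refine Finset.sup_le fun Z hZ => ?_
      rw [Finset.mem_filter, Finset.mem_powerset] at hZ
      obtain ⟨hZI, hZ⟩ := hZ
      have hnd2 : ∀ l ∈ Z, ∀ s t : ZMod p, s • a l 0 + t • a l 1 = 0 → s = 0 ∧ t = 0 := by
        intro l hl s t h
        have hl2 : LinearIndependent (ZMod p) (fun j : Fin 2 => a l j) := by
          have := hZ.comp (fun j : Fin 2 => ((⟨l, hl⟩, j) : Z × Fin 2))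
            (fun j j' h => congrArg Prod.snd h)
          exact this
        have h3 := Fintype.linearIndependent_iff.1 hl2 ![s, t] (by
          rw [Fin.sum_univ_two]
          exact h)
        exact ⟨h3 0, h3 1⟩
      have hZe : Z = (Finset.univ.filter fun i => e i ∈ Z).map ⟨e, he⟩ := by
        ext l
        rw [Finset.mem_map]
        constructor
        · intro hl
          obtain ⟨i, rfl⟩ := hsurj l (hZI hl) (hnd2 l hl)
          exact ⟨i, Finset.mem_filter.2 ⟨Finset.mem_univ _, hl⟩, rfl⟩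
        · rintro ⟨i, hi, rfl⟩
          exact (Finset.mem_filter.1 hi).2
      have h4 := h1 (Finset.univ.filter fun i => e i ∈ Z) ((hfam _).2 (by rw [← hZe]; exact hZ))
      have h5 : Z.card = (Finset.univ.filter fun i => e i ∈ Z).card := by
        conv_lhs => rw [hZe]
        rw [Finset.card_map]
      rw [h5]
      omega
    omega

end Pool.Agent.Helper36.Alg
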